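import Mathlib
import Pool.Prelude.Def_F_c31e40fa
import Pool.Agent.T2h24.GP.A12

set_option autoImplicit false

open Filter Metric MeasureTheory

namespace Pool.Agent.Results.MP_af9036_an.GrowthAndArea

/-- The polynomial `z ^ n + c`. -/
def f (n : ℕ) (c : ℂ) : ℂ → ℂ := fun z => z ^ n + c

/-- The parameters `c` for which `z ^ n + c` has an attracting cycle. -/
def hyp (n : ℕ) : Set ℂ := {c | ∃ m z, N62a1eb23.IsAttractingCycle (f n c) m z}

/-- The filled Julia set of `z ^ n + c`. -/
def filledJulia (n : ℕ) (c : ℂ) : Set ℂ :=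
  {z | ¬ Tendsto (fun k => (f n c)^[k] z) atTop (Bornology.cobounded ℂ)}

/-- The `i`-th point `f^i(c)` of the orbit of the critical value `c`. -/
def pt (n : ℕ) (c : ℂ) (i : ℕ) : ℂ := (f n c)^[i] c

/-- `0 < d ≤ 1`, and the `i`-th point is at distance at least `d` from the other points with index
less than `M`. -/
def Isolated (n : ℕ) (c : ℂ) (i M : ℕ) (d : ℝ) : Prop :=
  0 < d ∧ d ≤ 1 ∧ ∀ t < M, t ≠ i → d ≤ ‖pt n c t - pt n c i‖

/-- The derivative of an iterate at an arbitrary point of the critical orbit against the derivative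
of the critical orbit with respect to the parameter, and against the distance to the parameters with
an attracting cycle, or to the complement of the Multibrot set, and the area of the filled Julia
set. -/
theorem result (n : ℕ) (hn : 2 ≤ n) : ∃ C A : ℝ, 0 < C ∧ 0 < A ∧
    ∀ c ∈ N62a1eb23.multibrotSet n, ∀ i N : ℕ, 2 ≤ i + N → ∀ d : ℝ, Isolated n c i (i + N) d →
      -- (1) the derivative with respect to the parameter
      d * ‖deriv (f n c)^[N] (pt n c i)‖ ≤
        C * ((i + N : ℕ) : ℝ) ^ A * (1 + ‖deriv (fun a : ℂ => pt n a (i + N)) c‖) ∧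
      -- (2) discs of parameters
      ∀ r : ℝ, 0 < r → (ball c r ⊆ N62a1eb23.multibrotSet n ∨ Disjoint (ball c r) (hyp n)) →
        r * d * ‖deriv (f n c)^[N] (pt n c i)‖ ≤
          C * ((i + N : ℕ) : ℝ) ^ A * √(volume (filledJulia n c)).toReal := by
  obtain ⟨C, A, hC, hA, h⟩ := Pool.Agent.T2h24.GP.transv hn
  obtain ⟨κ, hκ, hD⟩ := Pool.Agent.T2h24.GP.D_area hn
  refine ⟨max C (2 * C / κ), A, by positivity, hA, ?_⟩
  intro c hc i N hiN d hI
  have hP : deriv (f n c)^[N] (pt n c i) =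
      Pool.Agent.W746.LD.P n c (Pool.Agent.W746.LD.orb n c c i) N :=
    (Pool.Agent.W746.LD.hasDerivAt_orb _ N).deriv
  have hDd : deriv (fun a : ℂ => pt n a (i + N)) c = Pool.Agent.TH363.QI.D n c (i + N) :=
    (Pool.Agent.TH363.QI.hasDerivAt_D n c (i + N)).deriv
  have h1 := h c hc i N hiN d hI.1 hI.2.1 hI.2.2
  have hM : (0 : ℝ) ≤ ((i + N : ℕ) : ℝ) ^ A := by positivity
  have hd := hI.1
  rw [hP, hDd]
  constructor
  · refine h1.trans ?_
    gcongr
    exact le_max_left _ _
  · intro r hr hball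
    have hsub : ball c r ⊆ N62a1eb23.multibrotSet n := by
      rcases hball with hb | hb
      · exact hb
      · apply Pool.Agent.H713R2.AR.ball_subset hn hr hc
        rintro t ht ⟨m, z, hz⟩
        exact Set.disjoint_left.mp hb ht ⟨m, z, hz⟩
    have h2 := hD c r hr hsub (i + N)
    have h3 := hD c r hr hsub 0
    rw [Pool.Agent.TH363.QI.D_zero, norm_one, mul_one] at h3
    obtain ⟨V, hV⟩ : ∃ V, V = √(volume (filledJulia n c)).toReal := ⟨_, rfl⟩
    have hV' : V = √(volume (Pool.Agent.H713R2.AR.KK n c)).toReal := hV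
    rw [← hV'] at h2 h3
    rw [← hV]
    have hV0 : 0 ≤ V := by rw [hV]; positivity
    calc r * d * ‖Pool.Agent.W746.LD.P n c (Pool.Agent.W746.LD.orb n c c i) N‖
        = r * (d * ‖Pool.Agent.W746.LD.P n c (Pool.Agent.W746.LD.orb n c c i) N‖) := by ring
      _ ≤ r * (C * ((i + N : ℕ) : ℝ) ^ A * (1 + ‖Pool.Agent.TH363.QI.D n c (i + N)‖)) := by
          gcongr
      _ = C * ((i + N : ℕ) : ℝ) ^ A *
          ((κ * r + κ * (r * ‖Pool.Agent.TH363.QI.D n c (i + N)‖)) / κ) := by
          field_simp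
      _ ≤ C * ((i + N : ℕ) : ℝ) ^ A * ((V + V) / κ) := by gcongr
      _ = 2 * C / κ * ((i + N : ℕ) : ℝ) ^ A * V := by ring
      _ ≤ max C (2 * C / κ) * ((i + N : ℕ) : ℝ) ^ A * V := by
          gcongr
          exact le_max_right _ _

end Pool.Agent.Results.MP_af9036_an.GrowthAndArea
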