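import Mathlib
import Pool.Prelude.Def_F_c31e40fa
import Pool.Agent.T2h24.GP.A9

set_option autoImplicit false

open Filter Metric

namespace Pool.Agent.Results.MP_af9036_an.OrbitPointGrowth

/-- The polynomial `z ^ n + c`. -/
def f (n : ℕ) (c : ℂ) : ℂ → ℂ := fun z => z ^ n + c

/-- The parameters `c` for which `z ^ n + c` has an attracting cycle. -/
def hyp (n : ℕ) : Set ℂ := {c | ∃ m z, N62a1eb23.IsAttractingCycle (f n c) m z}

/-- There is a parameter `c'` with `|c' - c| ≤ s` such that `z ^ n + c'` has an attracting cycle. -/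
def Near (n : ℕ) (c : ℂ) (s : ℝ) : Prop := ∃ c' ∈ hyp n, ‖c' - c‖ ≤ s

/-- The `i`-th point `f^i(c)` of the orbit of the critical value `c`. -/
def pt (n : ℕ) (c : ℂ) (i : ℕ) : ℂ := (f n c)^[i] c

/-- `0 < ρ ≤ 1`, and the `i`-th point is at distance at least `ρ` from the points before it. -/
def Sep (n : ℕ) (c : ℂ) (i : ℕ) (ρ : ℝ) : Prop :=
  0 < ρ ∧ ρ ≤ 1 ∧ ∀ t < i, ρ ≤ ‖pt n c t - pt n c i‖

/-- The orbit of the `i`-th point is unstable at the scale `δ` (in the unit `ρ`) in the time `N`: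
the derivative of the `N`-th iterate is at least `1 / (ρ δ)`, or the `N`-th iterate moves a point at
distance at most `ρ δ` to distance more than `δ ^ κ`. -/
def Unstable (n : ℕ) (c : ℂ) (i N : ℕ) (ρ κ δ : ℝ) : Prop :=
  1 / δ ≤ ρ * ‖deriv (f n c)^[N] (pt n c i)‖ ∨
    ∃ y : ℂ, ‖y - pt n c i‖ ≤ ρ * δ ∧ δ ^ κ < ‖(f n c)^[N] y - (f n c)^[N] (pt n c i)‖

/-- Instability at an arbitrary point of the critical orbit gives nearby parameters with an
attracting cycle. -/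
theorem result (n : ℕ) (hn : 2 ≤ n) (κ : ℝ) (hκ0 : 0 ≤ κ) (hκ1 : κ < 1) :
    ∃ C ε : ℝ, 0 < C ∧ 0 < ε ∧
    -- (1) one time
    (∀ c ∈ N62a1eb23.multibrotSet n, ∀ i N : ℕ, 2 ≤ i + N → ∀ ρ δ : ℝ, Sep n c i ρ → 0 < δ →
      δ ≤ Real.exp (-(C * Real.log ((i + N : ℕ) : ℝ) ^ 2)) → Unstable n c i N ρ κ δ →
      Near n c (δ ^ (ε / Real.log ((i + N : ℕ) : ℝ)))) ∧
    -- (2) infinitely many times
    (∀ c ∈ N62a1eb23.multibrotSet n,
      (∀ K : ℕ, ∃ i N : ℕ, ∃ ρ : ℝ, K ≤ i + N ∧ Sep n c i ρ ∧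
        Unstable n c i N ρ κ (Real.exp (-(C * Real.log ((i + N : ℕ) : ℝ) ^ 2)))) →
      c ∈ closure (hyp n)) := by
  obtain ⟨C1, ε1, hC1, hε1, h1⟩ := Pool.Agent.T2h24.GP.growD hn
  obtain ⟨C2, ε2, hC2, hε2, h2⟩ := Pool.Agent.T2h24.GP.sepx hn hκ0 hκ1
  have hP : ∀ (c x : ℂ) (N : ℕ), deriv (f n c)^[N] x = Pool.Agent.W746.LD.P n c x N :=
    fun c x N => (Pool.Agent.W746.LD.hasDerivAt_orb x N).deriv
  have near : ∀ (c : ℂ) (s : ℝ), Pool.Agent.T2h24.GP.NearH n c s → Near n c s := by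
    rintro c s ⟨c', h3, p, z, hz⟩
    exact ⟨c', ⟨p, z, hz⟩, h3⟩
  obtain ⟨C, hC⟩ : ∃ C, C = max C1 C2 := ⟨_, rfl⟩
  obtain ⟨ε, hε⟩ : ∃ ε, ε = min ε1 ε2 := ⟨_, rfl⟩
  have hC0 : 0 < C := by rw [hC]; positivity
  have hε0 : 0 < ε := by rw [hε]; positivity
  have hCC1 : C1 ≤ C := by rw [hC]; exact le_max_left _ _
  have hCC2 : C2 ≤ C := by rw [hC]; exact le_max_right _ _
  have hεε1 : ε ≤ ε1 := by rw [hε]; exact min_le_left _ _
  have hεε2 : ε ≤ ε2 := by rw [hε]; exact min_le_right _ _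
  have key : ∀ c ∈ N62a1eb23.multibrotSet n, ∀ i N : ℕ, 2 ≤ i + N → ∀ ρ δ : ℝ, Sep n c i ρ →
      0 < δ → δ ≤ Real.exp (-(C * Real.log ((i + N : ℕ) : ℝ) ^ 2)) → Unstable n c i N ρ κ δ →
      Near n c (δ ^ (ε / Real.log ((i + N : ℕ) : ℝ))) := by
    intro c hc i N hiN ρ δ hsep hδ0 hδ hU
    have hM : (2 : ℝ) ≤ ((i + N : ℕ) : ℝ) := by exact_mod_cast hiN
    have hl0 : 0 < Real.log ((i + N : ℕ) : ℝ) := Real.log_pos (by linarith)
    obtain ⟨l, hl⟩ : ∃ l, l = Real.log ((i + N : ℕ) : ℝ) := ⟨_, rfl⟩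
    have hρ := hsep.1
    have hδ1 : δ ≤ 1 := by
      refine hδ.trans ?_
      rw [Real.exp_le_one_iff]
      have : 0 ≤ C * Real.log ((i + N : ℕ) : ℝ) ^ 2 := by positivity
      linarith
    rcases hU with hU | ⟨y, hy1, hy2⟩
    · have hδinv : Real.exp (C * Real.log ((i + N : ℕ) : ℝ) ^ 2) ≤ 1 / δ := by
        rw [le_div_iff₀ hδ0]
        calc Real.exp (C * Real.log ((i + N : ℕ) : ℝ) ^ 2) * δ
            ≤ Real.exp (C * Real.log ((i + N : ℕ) : ℝ) ^ 2) *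
              Real.exp (-(C * Real.log ((i + N : ℕ) : ℝ) ^ 2)) := by gcongr
          _ = 1 := by rw [← Real.exp_add, add_neg_cancel, Real.exp_zero]
      have h3 := h1 c hc i N hiN ρ hρ hsep.2.1 hsep.2.2 (by
        rw [← hP]
        refine le_trans (Real.exp_le_exp.mpr ?_) (hδinv.trans hU)
        gcongr)
      rw [← hP] at h3
      apply near
      refine h3.mono ?_
      have hδi : 0 < 1 / δ := by positivity
      calc (ρ * ‖deriv (f n c)^[N] (pt n c i)‖) ^ (-(ε1 / Real.log ((i + N : ℕ) : ℝ)))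
          ≤ (1 / δ) ^ (-(ε1 / Real.log ((i + N : ℕ) : ℝ))) := by
            apply Real.rpow_le_rpow_of_nonpos hδi hU
            have : 0 ≤ ε1 / Real.log ((i + N : ℕ) : ℝ) := by positivity
            linarith
        _ = δ ^ (ε1 / Real.log ((i + N : ℕ) : ℝ)) := by
            rw [Real.rpow_neg hδi.le, one_div, Real.inv_rpow hδ0.le, inv_inv]
        _ ≤ δ ^ (ε / Real.log ((i + N : ℕ) : ℝ)) := by
            apply Real.rpow_le_rpow_of_exponent_ge hδ0 hδ1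
            gcongr
    · have hq : ‖y - pt n c i‖ / ρ ≤ δ := by
        rw [div_le_iff₀ hρ, mul_comm]
        exact hy1
      have h3 := h2 c hc i N hiN ρ hρ hsep.2.1 hsep.2.2 y (by
        refine hy1.trans ?_
        apply mul_le_mul_of_nonneg_left _ hρ.le
        refine hδ.trans (Real.exp_le_exp.mpr ?_)
        have h4 : C2 * Real.log ((i + N : ℕ) : ℝ) ^ 2 ≤
            C * Real.log ((i + N : ℕ) : ℝ) ^ 2 := by gcongr
        linarith) (by
        refine lt_of_le_of_lt ?_ hy2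
        exact Real.rpow_le_rpow (by positivity) hq hκ0)
      apply near
      refine h3.mono ?_
      calc (‖y - pt n c i‖ / ρ) ^ (ε2 / Real.log ((i + N : ℕ) : ℝ))
          ≤ δ ^ (ε2 / Real.log ((i + N : ℕ) : ℝ)) :=
            Real.rpow_le_rpow (by positivity) hq (by positivity)
        _ ≤ δ ^ (ε / Real.log ((i + N : ℕ) : ℝ)) := by
            apply Real.rpow_le_rpow_of_exponent_ge hδ0 hδ1
            gcongr
  refine ⟨C, ε, hC0, hε0, key, ?_⟩
  intro c hc hK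
  apply Pool.Agent.T2h24.GP.closure_of_nearH
  intro δ hδ
  have hlim : Tendsto (fun M : ℕ => Real.exp (-(ε * C * Real.log M))) atTop (nhds 0) := by
    apply Real.tendsto_exp_atBot.comp
    apply tendsto_neg_atTop_atBot.comp
    apply Tendsto.const_mul_atTop (by positivity)
    exact Real.tendsto_log_atTop.comp tendsto_natCast_atTop_atTop
  obtain ⟨K, hKδ⟩ := (hlim.eventually_lt_const hδ).exists_forall_of_atTop
  obtain ⟨i, N, ρ, h3, hsep, h4⟩ := hK (max K 2)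
  have hiN : 2 ≤ i + N := (le_max_right K 2).trans h3
  have hM : (2 : ℝ) ≤ ((i + N : ℕ) : ℝ) := by exact_mod_cast hiN
  have hl0 : 0 < Real.log ((i + N : ℕ) : ℝ) := Real.log_pos (by linarith)
  have hsm := (hKδ (i + N) ((le_max_left K 2).trans h3)).le
  obtain ⟨c', ⟨p, z, hz⟩, h6⟩ := key c hc i N hiN ρ _ hsep (Real.exp_pos _) le_rfl h4
  refine ⟨c', h6.trans (le_trans (le_of_eq ?_) hsm), p, z, hz⟩
  rw [← Real.exp_mul]
  congr 1
  field_simp

end Pool.Agent.Results.MP_af9036_an.OrbitPointGrowth
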