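import Mathlib
import Pool.Prelude.Def_F_c31e40fa
import Pool.Agent.T2h24.GP.A11

set_option autoImplicit false

open Filter Metric

namespace Pool.Agent.Results.MP_af9036_an.PolynomialClosing

/-- The polynomial `z ^ n + c`. -/
def f (n : ℕ) (c : ℂ) : ℂ → ℂ := fun z => z ^ n + c

/-- The parameters `c` for which `z ^ n + c` has an attracting cycle. -/
def hyp (n : ℕ) : Set ℂ := {c | ∃ m z, N62a1eb23.IsAttractingCycle (f n c) m z}

/-- The `i`-th point `f^i(c)` of the orbit of the critical value `c`. -/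
def pt (n : ℕ) (c : ℂ) (i : ℕ) : ℂ := (f n c)^[i] c

/-- `0 < d ≤ 1`, and the `i`-th point is at distance at least `d` from the other points with index
less than `j`. -/
def Isolated (n : ℕ) (c : ℂ) (i j : ℕ) (d : ℝ) : Prop :=
  0 < d ∧ d ≤ 1 ∧ ∀ t < j, t ≠ i → d ≤ ‖pt n c t - pt n c i‖

/-- The `N`-th iterate expands by the factor `Λ` at the `i`-th point: its derivative there is at
least `Λ`, or it expands some distance, up to a size at most `1`, by the factor `Λ`. -/
def Expands (n : ℕ) (c : ℂ) (i N : ℕ) (Λ : ℝ) : Prop :=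
  Λ ≤ ‖deriv (f n c)^[N] (pt n c i)‖ ∨
    ∃ y : ℂ, y ≠ pt n c i ∧
      Λ * ‖y - pt n c i‖ ≤ min 1 ‖(f n c)^[N] y - (f n c)^[N] (pt n c i)‖

/-- A closing lemma with polynomial loss at an arbitrary pair of times: if the point `z_j` of the
critical orbit is close to the earlier point `z_i`, relative to the distances of `z_i` to the other
points before `z_j`, then there is a parameter with an attracting cycle near `c`. -/
theorem result (n : ℕ) (hn : 2 ≤ n) : ∃ C A : ℝ, 0 < C ∧ 0 < A ∧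
    ∀ c ∈ N62a1eb23.multibrotSet n, ∀ M i j N : ℕ, 2 ≤ M → i < j → j ≤ M → N ≤ M →
      ∀ d Λ : ℝ, Isolated n c i j d → (M : ℝ) ^ A ≤ d * Λ → Expands n c i N Λ →
      infDist c (hyp n) ≤ C * (M : ℝ) ^ A * (‖pt n c j - pt n c i‖ / d) *
        (5 + Real.log (1 / ‖pt n c j - pt n c i‖)) := by
  obtain ⟨C, A, hC, hA, h⟩ := Pool.Agent.T2h24.GP.closP hn
  refine ⟨C, A, hC, hA, ?_⟩
  intro c hc M i j N hM hij hjM hNM d Λ hI hΛ hE
  have hP : deriv (f n c)^[N] (pt n c i) =
      Pool.Agent.W746.LD.P n c (Pool.Agent.W746.LD.orb n c c i) N :=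
    (Pool.Agent.W746.LD.hasDerivAt_orb _ N).deriv
  have key := h c hc M hM i j N hij hjM hNM d hI.1 hI.2.1 hI.2.2 Λ hΛ (by
    rcases hE with hE | hE
    · left
      rw [← hP]
      exact hE
    · right
      exact hE)
  apply le_of_forall_gt_imp_ge_of_dense
  intro s hs
  have e : 5 + Real.log (1 / ‖pt n c j - pt n c i‖) = 5 - Real.log ‖pt n c j - pt n c i‖ := by
    rw [one_div, Real.log_inv]
    ring
  rw [e] at hs
  obtain ⟨c', h1, p, z, hz⟩ := key s hs
  have h2 : infDist c (hyp n) ≤ dist c c' := infDist_le_dist_of_mem ⟨p, z, hz⟩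
  rw [dist_comm, dist_eq_norm] at h2
  exact h2.trans h1

end Pool.Agent.Results.MP_af9036_an.PolynomialClosing
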