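import Mathlib
import Pool.Prelude.Def_F_c31e40fa
import Pool.Agent.T2h24.GP.A10

set_option autoImplicit false

open Filter Metric

namespace Pool.Agent.Results.MP_af9036_an.PolynomialExpansion

/-- The polynomial `z ^ n + c`. -/
def f (n : ℕ) (c : ℂ) : ℂ → ℂ := fun z => z ^ n + c

/-- The parameters `c` for which `z ^ n + c` has an attracting cycle. -/
def hyp (n : ℕ) : Set ℂ := {c | ∃ m z, N62a1eb23.IsAttractingCycle (f n c) m z}

/-- There is a parameter `c'` with `|c' - c| ≤ s` such that `z ^ n + c'` has an attracting cycle of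
period at most `K`. -/
def Near (n K : ℕ) (c : ℂ) (s : ℝ) : Prop :=
  ∃ c' : ℂ, ‖c' - c‖ ≤ s ∧ ∃ p ≤ K, ∃ z, N62a1eb23.IsAttractingCycle (f n c') p z

/-- The `i`-th point `f^i(c)` of the orbit of the critical value `c`. -/
def pt (n : ℕ) (c : ℂ) (i : ℕ) : ℂ := (f n c)^[i] c

/-- `0 < d ≤ 1`, and the `i`-th point is at distance at least `d` from the other points with index
less than `M`. -/
def Isolated (n : ℕ) (c : ℂ) (i M : ℕ) (d : ℝ) : Prop :=
  0 < d ∧ d ≤ 1 ∧ ∀ t < M, t ≠ i → d ≤ ‖pt n c t - pt n c i‖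

/-- The `N`-th iterate expands by the factor `Λ` at the `i`-th point: its derivative there is at
least `Λ`, or it expands some distance, up to a size at most `1`, by the factor `Λ`. -/
def Expands (n : ℕ) (c : ℂ) (i N : ℕ) (Λ : ℝ) : Prop :=
  Λ ≤ ‖deriv (f n c)^[N] (pt n c i)‖ ∨
    ∃ y : ℂ, y ≠ pt n c i ∧
      Λ * ‖y - pt n c i‖ ≤ min 1 ‖(f n c)^[N] y - (f n c)^[N] (pt n c i)‖

/-- Expansion at an arbitrary point of the critical orbit gives a parameter with an attracting cycle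
of small period at a distance inversely proportional to the expansion, up to a polynomial factor. -/
theorem result (n : ℕ) (hn : 2 ≤ n) : ∃ C A : ℝ, 0 < C ∧ 0 < A ∧
    -- (1) one time
    (∀ c ∈ N62a1eb23.multibrotSet n, ∀ i N : ℕ, 2 ≤ i + N → ∀ d Λ : ℝ,
      Isolated n c i (i + N) d → 0 < Λ → Expands n c i N Λ →
      Near n (i + N + 2) c (C * ((i + N : ℕ) : ℝ) ^ A / (d * Λ))) ∧
    -- (2) infinitely many times
    (∀ c ∈ N62a1eb23.multibrotSet n,
      (∀ K : ℕ, ∃ i N : ℕ, ∃ d Λ : ℝ, K ≤ i + N ∧ Isolated n c i (i + N) d ∧ 0 < Λ ∧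
        Expands n c i N Λ ∧ ((i + N : ℕ) : ℝ) ^ (A + 1) ≤ d * Λ) →
      c ∈ closure (hyp n)) := by
  obtain ⟨C, A, hC, hA, h⟩ := Pool.Agent.T2h24.GP.expP hn
  have key : ∀ c ∈ N62a1eb23.multibrotSet n, ∀ i N : ℕ, 2 ≤ i + N → ∀ d Λ : ℝ,
      Isolated n c i (i + N) d → 0 < Λ → Expands n c i N Λ →
      Near n (i + N + 2) c (C * ((i + N : ℕ) : ℝ) ^ A / (d * Λ)) := by
    intro c hc i N hiN d Λ hI hΛ hE
    have hP : deriv (f n c)^[N] (pt n c i) =
        Pool.Agent.W746.LD.P n c (Pool.Agent.W746.LD.orb n c c i) N :=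
      (Pool.Agent.W746.LD.hasDerivAt_orb _ N).deriv
    refine h c hc i N hiN d hI.1 hI.2.1 hI.2.2 Λ hΛ ?_
    rcases hE with hE | hE
    · left
      rw [← hP]
      exact hE
    · right
      exact hE
  refine ⟨C, A, hC, hA, key, ?_⟩
  intro c hc hK
  apply Pool.Agent.T2h24.GP.closure_of_nearH
  intro δ hδ
  obtain ⟨K, hKδ⟩ := exists_nat_gt (C / δ)
  obtain ⟨i, N, d, Λ, h3, hI, hΛ, hE, h4⟩ := hK (max K 2)
  have hiN : 2 ≤ i + N := (le_max_right K 2).trans h3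
  have hKM : (K : ℝ) ≤ ((i + N : ℕ) : ℝ) := by exact_mod_cast (le_max_left K 2).trans h3
  have hM : (2 : ℝ) ≤ ((i + N : ℕ) : ℝ) := by exact_mod_cast hiN
  obtain ⟨c', h5, p, -, z, hz⟩ := key c hc i N hiN d Λ hI hΛ hE
  refine ⟨c', h5.trans ?_, p, z, hz⟩
  obtain ⟨M, hMd⟩ : ∃ M : ℝ, M = ((i + N : ℕ) : ℝ) := ⟨_, rfl⟩
  rw [← hMd] at h4 hKM hM ⊢
  have hM0 : 0 < M := by linarith
  have hMA : 0 < M ^ A := by positivity
  rw [Real.rpow_add hM0, Real.rpow_one] at h4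
  rw [div_lt_iff₀ hδ] at hKδ
  rw [div_le_iff₀ (lt_of_lt_of_le (by positivity) h4)]
  have h6 : C ≤ δ * M := by nlinarith
  calc C * M ^ A ≤ δ * M * M ^ A := by gcongr
    _ = δ * (M ^ A * M) := by ring
    _ ≤ δ * (d * Λ) := by gcongr

end Pool.Agent.Results.MP_af9036_an.PolynomialExpansion
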